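import Pool.Agent.Lib.SubBisX.Node

/-!
# The set function of the rows of a bipartite graph

The left vertices (rows) of the bipartite graph on `range n` are the numbers `< a`. In the graph with
`κ` copies of every row the numbers `< κ * a` are the copies (`y` is a copy of the row `y % a`), and
`κ * a + j` is the column `a + j`. The set function of the induced subgraph `W` is the matching
number of the copies of the rows in `X` and the columns of `W`.
-/

set_option autoImplicit false

namespace Pool.Agent.Lib.SubBisR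

open Finset Pool.Agent.Lib.Pa7c826 Pool.Agent.Lib.Pa7c826t Pool.Agent.Lib.SubBisX
open Pool.Agent.Lib.SubBisX.Node

/-- the vertex of the original graph -/
def og (a κ y : ℕ) : ℕ := if y < κ * a then y % a else y - κ * a + a

/-- the adjacency of the graph with `κ` copies of every row -/
def adjK (a κ : ℕ) (adj : ℕ → ℕ → Bool) (u v : ℕ) : Bool := adj (og a κ u) (og a κ v)

/-- the number of vertices of the graph with `κ` copies of every row -/
def nK (n a κ : ℕ) : ℕ := κ * a + (n - a)

/-- the copies of the rows in `W` and `X` and the columns in `W` -/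
def SK (n a κ : ℕ) (W X : Finset ℕ) : Finset ℕ :=
  (range (nK n a κ)).filter fun y => og a κ y ∈ W ∧ (y < κ * a → y % a ∈ X)

/-- the matching number of the copies of the rows in `X` and the columns of `W` -/
def cn (n a : ℕ) (adj : ℕ → ℕ → Bool) (κ : ℕ) (W X : Finset ℕ) : ℕ :=
  nu (nK n a κ) (κ * a) (adjK a κ adj) (SK n a κ W X)

/-- the set function of the rows -/
def FR (n a : ℕ) (adj : ℕ → ℕ → Bool) (κ : ℕ) (W : Finset ℕ) (X : Finset (Fin a)) : ℤ :=
  (cn n a adj κ W (toN X) : ℤ)

/-- the columns of `W` with a neighbour in `X` -/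
def nb (a : ℕ) (adj : ℕ → ℕ → Bool) (W X : Finset ℕ) : Finset ℕ :=
  W.filter fun u => ¬ u < a ∧ ∃ v ∈ X, adj v u = true

variable {n a κ : ℕ} {adj : ℕ → ℕ → Bool}

theorem og_lt {y : ℕ} (hy : y < κ * a) : og a κ y = y % a := if_pos hy

theorem og_ge {y : ℕ} (hy : ¬ y < κ * a) : og a κ y = y - κ * a + a := if_neg hy

theorem a_pos_of {y : ℕ} (hy : y < κ * a) : 0 < a := by
  rcases Nat.eq_zero_or_pos a with h | h
  · rw [h, Nat.mul_zero] at hy
    omega
  · exact h

theorem og_lt_iff {y : ℕ} : og a κ y < a ↔ y < κ * a := by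
  by_cases h : y < κ * a
  · rw [og_lt h]
    exact iff_of_true (Nat.mod_lt _ (a_pos_of h)) h
  · rw [og_ge h]
    exact iff_of_false (by omega) h

theorem adjK_symm (hs : ∀ u v, adj u v = adj v u) (u v : ℕ) :
    adjK a κ adj u v = adjK a κ adj v u := hs _ _

theorem adjK_bip (hbip : ∀ u v, adj u v = true → (u < a ↔ ¬ v < a)) (u v : ℕ)
    (h : adjK a κ adj u v = true) : u < κ * a ↔ ¬ v < κ * a := by
  have h1 := hbip _ _ h
  rw [og_lt_iff, og_lt_iff] at h1
  exact h1

theorem SK_subset (n a κ : ℕ) (W X : Finset ℕ) : SK n a κ W X ⊆ range (nK n a κ) :=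
  filter_subset _ _

theorem mem_SK {W X : Finset ℕ} {y : ℕ} :
    y ∈ SK n a κ W X ↔ y < nK n a κ ∧ og a κ y ∈ W ∧ (y < κ * a → y % a ∈ X) := by
  unfold SK
  rw [mem_filter, mem_range]

theorem mem_nb {W X : Finset ℕ} {u : ℕ} :
    u ∈ nb a adj W X ↔ u ∈ W ∧ ¬ u < a ∧ ∃ v ∈ X, adj v u = true := by
  unfold nb
  rw [mem_filter]

end Pool.Agent.Lib.SubBisR
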