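import Pool.Agent.Lib.SubBisR.RDefs
import Pool.Agent.Lib.SubBisX.NuF

/-!
The set function of the rows is submodular and its increments are between `0` and `κ`; it is the
minimum over `T ⊆ X` of `|N(T)| + κ |X \ T|`.
-/

set_option autoImplicit false

namespace Pool.Agent.Lib.SubBisR

open Finset Pool.Agent.Lib.Pa7c826 Pool.Agent.Lib.Pa7c826t Pool.Agent.Lib.SubBisX
open Pool.Agent.Lib.SubBisX.Node

variable {n a κ : ℕ} {adj : ℕ → ℕ → Bool}

/-- the copies of the rows of `X` -/
def lft (a κ : ℕ) (X : Finset ℕ) : Finset ℕ := (range (κ * a)).filter fun y => y % a ∈ X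

/-- the vertices over `W` -/
def WK (n a κ : ℕ) (W : Finset ℕ) : Finset ℕ := (range (nK n a κ)).filter fun y => og a κ y ∈ W

theorem WK_subset (n a κ : ℕ) (W : Finset ℕ) : WK n a κ W ⊆ range (nK n a κ) := filter_subset _ _

theorem SK_eq (n a κ : ℕ) (W X : Finset ℕ) :
    SK n a κ W X = IX (κ * a) (WK n a κ W) (lft a κ X) := by
  ext y
  rw [mem_SK, mem_IX]
  unfold WK lft
  rw [mem_filter, mem_filter, mem_range, mem_range]
  by_cases h : y < κ * a
  · rw [if_pos h]
    tauto
  · rw [if_neg h]
    tauto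

theorem lft_union (X Y : Finset ℕ) : lft a κ (X ∪ Y) = lft a κ X ∪ lft a κ Y := by
  unfold lft
  rw [← filter_or]
  exact filter_congr fun y _ => mem_union

theorem lft_inter (X Y : Finset ℕ) : lft a κ (X ∩ Y) = lft a κ X ∩ lft a κ Y := by
  unfold lft
  rw [← filter_and]
  exact filter_congr fun y _ => mem_inter

/-- submodularity -/
theorem cn_sub (hs : ∀ u v, adj u v = adj v u) (hbip : ∀ u v, adj u v = true → (u < a ↔ ¬ v < a))
    (W X Y : Finset ℕ) : cn n a adj κ W (X ∪ Y) + cn n a adj κ W (X ∩ Y) ≤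
      cn n a adj κ W X + cn n a adj κ W Y := by
  unfold cn
  rw [SK_eq, SK_eq, SK_eq, SK_eq, lft_union, lft_inter]
  exact nu_IX_sub (WK_subset n a κ W) (adjK_symm hs) (adjK_bip hbip) _ _

theorem SK_mono {W X Y : Finset ℕ} (h : X ⊆ Y) : SK n a κ W X ⊆ SK n a κ W Y := by
  intro y hy
  rw [mem_SK] at hy ⊢
  exact ⟨hy.1, hy.2.1, fun h1 => h (hy.2.2 h1)⟩

theorem cn_mono (hs : ∀ u v, adj u v = adj v u) (hbip : ∀ u v, adj u v = true → (u < a ↔ ¬ v < a))
    {W X Y : Finset ℕ} (h : X ⊆ Y) : cn n a adj κ W X ≤ cn n a adj κ W Y :=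
  nu_le_nu (SK_subset n a κ W Y) (adjK_symm hs) (adjK_bip hbip) (SK_mono h)

/-- the copies of a row -/
theorem card_copies (a κ v : ℕ) :
    ((range (κ * a)).filter fun y => y % a = v).card ≤ κ := by
  refine (card_le_card_of_injOn (fun y => y / a) (t := range κ) ?_ ?_).trans_eq (card_range κ)
  · intro y hy
    have hy' := mem_filter.1 (mem_coe.1 hy)
    have hy1 := mem_range.1 hy'.1
    rw [mem_coe, mem_range]
    exact Nat.div_lt_of_lt_mul (by rw [Nat.mul_comm]; exact hy1)
  · intro y hy z hz hyz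
    have hy' := (mem_filter.1 (mem_coe.1 hy)).2
    have hz' := (mem_filter.1 (mem_coe.1 hz)).2
    simp only at hyz
    rw [← Nat.div_add_mod y a, ← Nat.div_add_mod z a, hyz, hy', hz']

theorem cn_insert (hs : ∀ u v, adj u v = adj v u)
    (hbip : ∀ u v, adj u v = true → (u < a ↔ ¬ v < a)) (W X : Finset ℕ) (v : ℕ) :
    cn n a adj κ W (insert v X) ≤ cn n a adj κ W X + κ := by
  have h1 := nu_mono (SK_subset n a κ W (insert v X)) (adjK_symm hs (κ := κ)) (adjK_bip hbip)
    (SK_mono (subset_insert v X))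
  have h2 : (SK n a κ W (insert v X)).card ≤ (SK n a κ W X).card + κ := by
    have h3 : SK n a κ W (insert v X) ⊆
        SK n a κ W X ∪ (range (κ * a)).filter fun y => y % a = v := by
      intro y hy
      rw [mem_union, mem_SK, mem_filter, mem_range]
      rw [mem_SK] at hy
      by_cases h : y < κ * a
      · rcases mem_insert.1 (hy.2.2 h) with h4 | h4
        · exact Or.inr ⟨h, h4⟩
        · exact Or.inl ⟨hy.1, hy.2.1, fun _ => h4⟩
      · exact Or.inl ⟨hy.1, hy.2.1, fun h5 => absurd h5 h⟩
    exact ((card_le_card h3).trans (card_union_le _ _)).trans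
      (Nat.add_le_add_left (card_copies a κ v) _)
  unfold cn
  omega

theorem cn_le_nb (hs : ∀ u v, adj u v = adj v u)
    (hbip : ∀ u v, adj u v = true → (u < a ↔ ¬ v < a)) (W X : Finset ℕ) :
    cn n a adj κ W X ≤ (nb a adj W X).card := by
  classical
  set S := SK n a κ W X with hS
  set J := S.filter fun y => y < κ * a ∨ og a κ y ∉ nb a adj W X with hJ
  have hJS : J ⊆ S := filter_subset _ _
  have hI : ∀ u ∈ J, ∀ v ∈ J, adjK a κ adj u v = false := by
    have key : ∀ u ∈ J, ∀ v ∈ J, u < κ * a → adjK a κ adj u v = false := by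
      intro u hu v hv hua
      by_contra h
      rw [Bool.not_eq_false] at h
      have hva := (adjK_bip hbip u v h).1 hua
      have hu1 := mem_SK.1 (hJS hu)
      have hv1 := mem_SK.1 (hJS hv)
      rcases (mem_filter.1 hv).2 with h2 | h2
      · exact hva h2
      · refine h2 (mem_nb.2 ⟨hv1.2.1, ?_, og a κ u, ?_, h⟩)
        · rw [og_lt_iff]
          exact hva
        · rw [og_lt hua]
          exact hu1.2.2 hua
    intro u hu v hv
    by_cases hua : u < κ * a
    · exact key u hu v hv hua
    · by_contra h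
      rw [Bool.not_eq_false] at h
      have h2 : v < κ * a := by
        by_contra h3
        exact hua ((adjK_bip hbip u v h).2 h3)
      rw [adjK_symm hs] at h
      rw [key v hv u hu h2] at h
      exact absurd h (by simp)
  have h1 := indep_nu (SK_subset n a κ W X) (adjK_symm hs) (adjK_bip hbip) hJS hI
  have h2 := card_sdiff_add_card_eq_card hJS
  have h3 : (S \ J).card ≤ (nb a adj W X).card := by
    refine card_le_card_of_injOn (og a κ) ?_ ?_
    · intro y hy
      have hy' := mem_sdiff.1 (mem_coe.1 hy)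
      by_contra h
      exact hy'.2 (mem_filter.2 ⟨hy'.1, Or.inr (fun h4 => h (mem_coe.2 h4))⟩)
    · intro y hy z hz hyz
      have hy' := mem_sdiff.1 (mem_coe.1 hy)
      have hz' := mem_sdiff.1 (mem_coe.1 hz)
      have hya : ¬ y < κ * a := fun h => hy'.2 (mem_filter.2 ⟨hy'.1, Or.inl h⟩)
      have hza : ¬ z < κ * a := fun h => hz'.2 (mem_filter.2 ⟨hz'.1, Or.inl h⟩)
      rw [og_ge hya, og_ge hza] at hyz
      omega
  unfold cn
  rw [← hS] at h1 ⊢
  omega

/-- the minimum is attained -/
theorem exists_T (han : a ≤ n) {W : Finset ℕ} (hW : W ⊆ range n) (hs : ∀ u v, adj u v = adj v u)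
    (hbip : ∀ u v, adj u v = true → (u < a ↔ ¬ v < a)) {X : Finset ℕ} (hX : X ⊆ W)
    (hXa : ∀ v ∈ X, v < a) :
    ∃ T ⊆ X, (nb a adj W T).card + κ * (X \ T).card ≤ cn n a adj κ W X := by
  classical
  set S := SK n a κ W X with hS
  obtain ⟨J, hJ, hc, hI⟩ := nu_indep (SK_subset n a κ W X) (adjK_symm hs (κ := κ)) (adjK_bip hbip)
  set T := X.filter fun r => ∃ y ∈ J, y < κ * a ∧ y % a = r with hT
  refine ⟨T, filter_subset _ _, ?_⟩
  have h2 := card_sdiff_add_card_eq_card hJ
  have h3 : (nb a adj W T).card + κ * (X \ T).card ≤ (S \ J).card := by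
    set P := (nb a adj W T).image fun u => u - a + κ * a with hP
    set Q := ((X \ T) ×ˢ range κ).image fun p => p.1 + a * p.2 with hQ
    have hPc : P.card = (nb a adj W T).card := by
      refine card_image_of_injOn ?_
      intro u hu v hv huv
      have hu' := (mem_nb.1 (mem_coe.1 hu)).2.1
      have hv' := (mem_nb.1 (mem_coe.1 hv)).2.1
      simp only at huv
      omega
    have hQc : Q.card = κ * (X \ T).card := by
      rw [hQ, card_image_of_injOn, card_product, card_range, Nat.mul_comm]
      rintro ⟨r, i⟩ hr ⟨r', i'⟩ hr' h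
      simp only at h
      have h4 := hXa r (mem_sdiff.1 (mem_product.1 (mem_coe.1 hr)).1).1
      have h5 := hXa r' (mem_sdiff.1 (mem_product.1 (mem_coe.1 hr')).1).1
      have h6 : (r + a * i) % a = (r' + a * i') % a := by rw [h]
      rw [Nat.add_mul_mod_self_left, Nat.add_mul_mod_self_left, Nat.mod_eq_of_lt h4,
        Nat.mod_eq_of_lt h5] at h6
      subst h6
      have h7 : a * i = a * i' := by omega
      have h8 := Nat.eq_of_mul_eq_mul_left (by omega) h7
      rw [h8]
    have hd : Disjoint P Q := by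
      rw [disjoint_left]
      intro y hy1 hy2
      obtain ⟨u, hu, rfl⟩ := mem_image.1 hy1
      obtain ⟨⟨r, i⟩, hp, h⟩ := mem_image.1 hy2
      have h4 := hXa r (mem_sdiff.1 (mem_product.1 hp).1).1
      have h5 := mem_range.1 (mem_product.1 hp).2
      simp only at h
      have h6 : r + a * i < κ * a := by
        calc r + a * i < a + a * i := by omega
          _ = a * (i + 1) := by ring
          _ ≤ a * κ := Nat.mul_le_mul_left _ h5
          _ = κ * a := Nat.mul_comm _ _
      omega
    rw [← hPc, ← hQc, ← card_union_of_disjoint hd]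
    refine card_le_card ?_
    intro y hy
    rw [mem_sdiff]
    rcases mem_union.1 hy with hy1 | hy1
    · obtain ⟨u, hu, rfl⟩ := mem_image.1 hy1
      obtain ⟨hu1, hu2, r, hr, hru⟩ := mem_nb.1 hu
      have hun := mem_range.1 (hW hu1)
      have hge : ¬ (u - a + κ * a < κ * a) := by omega
      have hog : og a κ (u - a + κ * a) = u := by
        rw [og_ge hge]
        omega
      refine ⟨mem_SK.2 ⟨?_, ?_, fun h => absurd h hge⟩, fun hyJ => ?_⟩
      · unfold nK
        omega
      · rw [hog]
        exact hu1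
      · obtain ⟨hr1, z, hz, hza, hzr⟩ := mem_filter.1 hr
        have h4 := hI z hz _ hyJ
        unfold adjK at h4
        rw [og_lt hza, hog, hzr, hru] at h4
        exact absurd h4 (by simp)
    · obtain ⟨⟨r, i⟩, hp, rfl⟩ := mem_image.1 hy1
      have hr := mem_sdiff.1 (mem_product.1 hp).1
      have h4 := hXa r hr.1
      have h5 := mem_range.1 (mem_product.1 hp).2
      have h6 : r + a * i < κ * a := by
        calc r + a * i < a + a * i := by omega
          _ = a * (i + 1) := by ring
          _ ≤ a * κ := Nat.mul_le_mul_left _ h5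
          _ = κ * a := Nat.mul_comm _ _
      have h7 : (r + a * i) % a = r := by
        rw [Nat.add_mul_mod_self_left, Nat.mod_eq_of_lt h4]
      refine ⟨mem_SK.2 ⟨?_, ?_, fun _ => ?_⟩, fun hyJ => ?_⟩
      · unfold nK
        simp only
        omega
      · simp only
        rw [og_lt h6, h7]
        exact hX hr.1
      · simp only
        rw [h7]
        exact hr.1
      · exact hr.2 (mem_filter.2 ⟨hr.1, r + a * i, hyJ, h6, h7⟩)
  unfold cn
  rw [← hS] at hc ⊢
  have h4 : (S \ J).card + J.card = S.card := h2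
  omega

/-! ### The set function -/

theorem FR_empty (hs : ∀ u v, adj u v = adj v u)
    (hbip : ∀ u v, adj u v = true → (u < a ↔ ¬ v < a)) (W : Finset ℕ) :
    FR n a adj κ W ∅ = 0 := by
  have h := cn_le_nb (n := n) (κ := κ) hs hbip W ∅
  have h1 : nb a adj W ∅ = ∅ := by
    rw [eq_empty_iff_forall_notMem]
    intro u hu
    obtain ⟨-, -, v, hv, -⟩ := mem_nb.1 hu
    exact absurd hv (notMem_empty v)
  rw [h1, card_empty] at h
  unfold FR
  rw [toN_empty]
  exact_mod_cast Nat.le_zero.1 h

theorem FR_insert (hs : ∀ u v, adj u v = adj v u)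
    (hbip : ∀ u v, adj u v = true → (u < a ↔ ¬ v < a)) (W : Finset ℕ) (v : Fin a)
    (S : Finset (Fin a)) : |FR n a adj κ W (insert v S) - FR n a adj κ W S| ≤ κ := by
  have h1 := cn_insert (n := n) (κ := κ) hs hbip W (toN S) v
  have h2 := cn_mono (n := n) (κ := κ) hs hbip (W := W) (subset_insert (v : ℕ) (toN S))
  unfold FR
  rw [toN_insert, abs_le]
  omega

theorem FR_sub (hs : ∀ u v, adj u v = adj v u)
    (hbip : ∀ u v, adj u v = true → (u < a ↔ ¬ v < a)) (W : Finset ℕ) (S S' : Finset (Fin a)) :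
    FR n a adj κ W (S ∪ S') + FR n a adj κ W (S ∩ S') ≤ FR n a adj κ W S + FR n a adj κ W S' := by
  have h := cn_sub (n := n) (κ := κ) hs hbip W (toN S) (toN S')
  unfold FR
  rw [toN_union, toN_inter]
  exact_mod_cast h

end Pool.Agent.Lib.SubBisR
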