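import Pool.Agent.Lib.SubBisR.RNu
import Pool.Agent.Lib.Pa7c826t.AuctPoly
import Pool.Agent.Lib.Pa7c826.Transfer

/-!
The set function of the rows is computable in polynomial time: the matching number of the graph with
`κ` copies of every row.
-/

set_option autoImplicit false

namespace Pool.Agent.Lib.SubBisR

open Finset Pool.Agent.Lib.PolyTime Pool.Agent.Lib.Pa7c826 Pool.Agent.Lib.Pa7c826t

/-- the code of the graph with `κ` copies of every row -/
def blow (κ : ℕ) (w : List Bool) : List Bool :=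
  inCode (mkGraph (κ * aOf w) (bOf w) fun i j => adjOf w (i % aOf w) (aOf w + j)) 0

theorem aOf_blow (κ : ℕ) (w : List Bool) : aOf (blow κ w) = κ * aOf w := aOf_inCode _ _

theorem bOf_blow (κ : ℕ) (w : List Bool) : bOf (blow κ w) = bOf w := bOf_inCode _ _

theorem nOf_blow (κ : ℕ) (w : List Bool) : nOf (blow κ w) = nK (nOf w) (aOf w) κ := by
  unfold nOf nK
  rw [aOf_blow, bOf_blow]
  omega

theorem adjOf_blow_lr {κ : ℕ} {w : List Bool} {u v : ℕ} (hu : u < κ * aOf w)
    (hv : κ * aOf w ≤ v) (hv' : v < κ * aOf w + bOf w) :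
    adjOf (blow κ w) u v = adjK (aOf w) κ (adjOf w) u v := by
  have h1 := adjOf_lr (mkGraph (κ * aOf w) (bOf w) fun i j => adjOf w (i % aOf w) (aOf w + j)) 0
    ⟨u, hu⟩ ⟨v - κ * aOf w, by show v - κ * aOf w < bOf w; omega⟩
  have h2 : (mkGraph (κ * aOf w) (bOf w) fun i j => adjOf w (i % aOf w) (aOf w + j)).a +
      (v - κ * aOf w) = v := by
    show κ * aOf w + (v - κ * aOf w) = v
    omega
  simp only at h1
  rw [h2] at h1
  unfold blow
  rw [h1]
  unfold adjK
  rw [og_lt hu, og_ge (by omega)]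
  show adjOf w (u % aOf w) (aOf w + (v - κ * aOf w)) = _
  rw [Nat.add_comm]

theorem adjOf_blow (κ : ℕ) (w : List Bool) (u v : ℕ) :
    adjOf (blow κ w) u v = adjK (aOf w) κ (adjOf w) u v := by
  by_cases h1 : u < κ * aOf w ∧ κ * aOf w ≤ v ∧ v < κ * aOf w + bOf w
  · exact adjOf_blow_lr h1.1 h1.2.1 h1.2.2
  · by_cases h2 : v < κ * aOf w ∧ κ * aOf w ≤ u ∧ u < κ * aOf w + bOf w
    · rw [adjOf_symm, adjOf_blow_lr h2.1 h2.2.1 h2.2.2]
      exact adjK_symm (adjOf_symm w) v u
    · have e1 : adjOf (blow κ w) u v = false := by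
        by_contra h
        rw [Bool.not_eq_false] at h
        have h3 := adjOf_bip h
        rw [aOf_blow, bOf_blow] at h3
        tauto
      have e2 : adjK (aOf w) κ (adjOf w) u v = false := by
        by_contra h
        rw [Bool.not_eq_false] at h
        unfold adjK at h
        rcases adjOf_bip h with h3 | h3
        · have h4 := og_lt_iff.1 h3.1
          have h5 : ¬ v < κ * aOf w := fun h6 => by
            have := og_lt_iff.2 h6
            omega
          rw [og_ge h5] at h3
          exact h1 ⟨h4, by omega, by omega⟩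
        · have h4 := og_lt_iff.1 h3.1
          have h5 : ¬ u < κ * aOf w := fun h6 => by
            have := og_lt_iff.2 h6
            omega
          rw [og_ge h5] at h3
          exact h2 ⟨h4, by omega, by omega⟩
      rw [e1, e2]

variable {α : Type*} {D : α → Prop} {ctx : List (α → List Bool)}

theorem poly_blow {w : α → List Bool} {κ : α → ℕ} (hw : PolyC D ctx w) (hκ : PolyN D ctx κ) :
    PolyC D ctx (fun x => blow (κ x) (w x)) := by
  have ha := poly_aOf hw
  have hb := poly_bOf hw
  refine poly_inCode (F := fun x i j => adjOf (w x) (i % aOf (w x)) (aOf (w x) + j))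
    (hκ.mul ha) hb (PolyN.const 0) ?_
  have A1 := upN (n := fun x => κ x * aOf (w x)) ha
  have W1 := up (n := fun x => κ x * aOf (w x)) hw
  have I1 := last (D := D) (ctx := ctx) (n := fun x => κ x * aOf (w x))
  let n2 : α × ℕ → ℕ := fun p => bOf (w p.1)
  have A2 := upN (n := n2) A1
  have W2 := up (n := n2) W1
  have I2 := upN (n := n2) I1
  have J2 := last (D := fun p : α × ℕ => D p.1 ∧ p.2 < κ p.1 * aOf (w p.1))
    (ctx := PolyTime.lift ctx ++ [fun p : α × ℕ => un p.2]) (n := n2)
  have hapos : ∀ q : (α × ℕ) × ℕ, ((D q.1.1 ∧ q.1.2 < κ q.1.1 * aOf (w q.1.1)) ∧ q.2 < n2 q.1) →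
      0 < aOf (w q.1.1) := fun q h => a_pos_of h.1.2
  exact poly_adj W2 (PolyN.mod I2 A2 hapos) (A2.add J2)

/-- **The set function of the rows in polynomial time.** -/
theorem poly_cn {w : α → List Bool} {κ : α → ℕ} {W X : α → Finset ℕ} (hw : PolyC D ctx w)
    (hκ : PolyN D ctx κ) (hW : PolyS D ctx (fun x => nOf (w x)) W)
    (hX : PolyS D ctx (fun x => aOf (w x)) X) :
    PolyN D ctx (fun x => cn (nOf (w x)) (aOf (w x)) (adjOf (w x)) (κ x) (W x) (X x)) := by
  have hbl := poly_blow hw hκ
  have hn := poly_nOf hbl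
  have ha := poly_aOf hw
  have hka := hκ.mul ha
  -- the vertex set
  have hS : PolyS D ctx (fun x => nOf (blow (κ x) (w x)))
      (fun x => SK (nOf (w x)) (aOf (w x)) (κ x) (W x) (X x)) := by
    have Y := last (D := D) (ctx := ctx) (n := fun x => nOf (blow (κ x) (w x)))
    have A := upN (n := fun x => nOf (blow (κ x) (w x))) ha
    have KA := upN (n := fun x => nOf (blow (κ x) (w x))) hka
    have WW := hW.up (m := fun x => nOf (blow (κ x) (w x)))
    have XX := hX.up (m := fun x => nOf (blow (κ x) (w x)))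
    have c1 := PolyB.lt Y KA
    have hm : ∀ {b : Bool} {t : α × ℕ → List Bool},
        PolyC (fun p : α × ℕ => D p.1 ∧ p.2 < nOf (blow (κ p.1) (w p.1)))
          (PolyTime.lift ctx ++ [fun p => un p.2]) t →
        PolyC (fun p : α × ℕ => (D p.1 ∧ p.2 < nOf (blow (κ p.1) (w p.1))) ∧
          decide (p.2 < κ p.1 * aOf (w p.1)) = b)
          (PolyTime.lift ctx ++ [fun p => un p.2]) t := fun h => PolyC.mono h (fun _ h => h.1)
    have hmod : PolyN (fun p : α × ℕ => (D p.1 ∧ p.2 < nOf (blow (κ p.1) (w p.1))) ∧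
        decide (p.2 < κ p.1 * aOf (w p.1)) = true)
        (PolyTime.lift ctx ++ [fun p => un p.2]) (fun p => p.2 % aOf (w p.1)) :=
      PolyN.mod (hm Y) (hm A) (fun p hp => a_pos_of (by simpa using hp.2))
    have b1 := (PolyS.mem (PolyS.mono WW fun _ h => h.1) hmod).and
      (PolyS.mem (PolyS.mono XX fun _ h => h.1) hmod)
    have b2 : PolyB (fun p : α × ℕ => (D p.1 ∧ p.2 < nOf (blow (κ p.1) (w p.1))) ∧
        decide (p.2 < κ p.1 * aOf (w p.1)) = false)
        (PolyTime.lift ctx ++ [fun p => un p.2])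
        (fun p => decide (p.2 - κ p.1 * aOf (w p.1) + aOf (w p.1) ∈ W p.1)) :=
      PolyS.mem (PolyS.mono WW fun _ h => h.1) ((PolyN.sub (hm Y) (hm KA)).add (hm A))
    have hφ := PolyB.ite c1 b1 b2
    refine (PolyS.filter (φ := fun p : α × ℕ => if decide (p.2 < κ p.1 * aOf (w p.1)) = true then
        (decide (p.2 % aOf (w p.1) ∈ W p.1) && decide (p.2 % aOf (w p.1) ∈ X p.1)) else
        decide (p.2 - κ p.1 * aOf (w p.1) + aOf (w p.1) ∈ W p.1)) hn (PolyS.range hn) hφ).congr
      (fun x _ => ?_)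
    unfold SK
    rw [nOf_blow]
    refine filter_congr fun y _ => ?_
    simp only
    by_cases h : y < κ x * aOf (w x)
    · rw [if_pos (decide_eq_true h), og_lt h]
      simp only [Bool.and_eq_true, decide_eq_true_eq]
      tauto
    · rw [if_neg (by simpa using h), og_ge h]
      simp only [decide_eq_true_eq]
      tauto
  refine (poly_nu hbl hS).congr (fun x _ => ?_)
  unfold cn
  rw [nOf_blow, aOf_blow]
  congr 1
  funext u v
  exact adjOf_blow (κ x) (w x) u v

end Pool.Agent.Lib.SubBisR
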