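import Pool.Agent.Lib.SubBisR.RNu
import Pool.Agent.Lib.SubBisX.NuSum
import Pool.Agent.Lib.SubBisX.Bounds

/-!
The partition function of the set function of the rows and the number of independent subsets of `W`.
-/

set_option autoImplicit false

namespace Pool.Agent.Lib.SubBisR

open Finset Pool.Agent.Lib.Pa7c826 Pool.Agent.Lib.Pa7c826t Pool.Agent.Lib.SubBisX
open Pool.Agent.Lib.SubBisX.Node

variable {n a κ : ℕ} {adj : ℕ → ℕ → Bool}

/-- the rows of `W` -/
def Wr (a : ℕ) (W : Finset ℕ) : Finset ℕ := W.filter fun v => v < a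

/-- the columns of `W` -/
def Wc (a : ℕ) (W : Finset ℕ) : Finset ℕ := W.filter fun v => ¬ v < a

theorem card_Wr_add_Wc (a : ℕ) (W : Finset ℕ) : (Wr a W).card + (Wc a W).card = W.card :=
  card_filter_add_card_filter_not _

/-- `cn` only depends on the rows in `W` -/
theorem cn_inter (n a κ : ℕ) (adj : ℕ → ℕ → Bool) (W X : Finset ℕ) :
    cn n a adj κ W (X ∩ Wr a W) = cn n a adj κ W X := by
  unfold cn
  congr 1
  ext y
  rw [mem_SK, mem_SK]
  refine and_congr_right fun _ => and_congr_right fun h => ?_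
  refine forall_congr' fun h1 => ?_
  rw [mem_inter]
  refine and_iff_left ?_
  unfold Wr
  rw [og_lt h1] at h
  exact mem_filter.2 ⟨h, Nat.mod_lt _ (a_pos_of h1)⟩

/-- the sum over all sets of rows -/
theorem sum_rows (g : Finset ℕ → ℝ) {R : Finset ℕ} (hR : R ⊆ range a) :
    ∑ X ∈ (range a).powerset, g (X ∩ R) = 2 ^ (a - R.card) * ∑ Y ∈ R.powerset, g Y := by
  have h := sum_IX a (n := a) hR g
  rw [← h]
  refine sum_congr rfl fun X hX => ?_
  congr 1
  ext v
  rw [mem_IX, mem_inter]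
  constructor
  · rintro ⟨h1, h2⟩
    rw [if_pos (mem_range.1 (hR h2))]
    exact ⟨h2, h1⟩
  · rintro ⟨h1, h2⟩
    rw [if_pos (mem_range.1 (hR h1))] at h2
    exact ⟨h2, h1⟩

/-- the number of independent sets as a sum over the sets of rows -/
theorem ind_eq_sum_rows (hs : ∀ u v, adj u v = adj v u)
    (hbip : ∀ u v, adj u v = true → (u < a ↔ ¬ v < a)) (W : Finset ℕ) :
    ind adj W = ∑ Y ∈ (Wr a W).powerset, 2 ^ ((Wc a W).card - (nb a adj W Y).card) := by
  classical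
  have h1 : ∀ Y ∈ (Wr a W).powerset, 2 ^ ((Wc a W).card - (nb a adj W Y).card) =
      ((Wc a W \ nb a adj W Y).powerset).card := by
    intro Y _
    rw [card_powerset, card_sdiff_of_subset]
    intro u hu
    obtain ⟨h2, h3, -⟩ := mem_nb.1 hu
    exact mem_filter.2 ⟨h2, h3⟩
  rw [sum_congr rfl h1, ← card_sigma]
  unfold ind
  refine card_bij' (fun I _ => ⟨I.filter fun v => v < a, I.filter fun v => ¬ v < a⟩)
    (fun p _ => p.1 ∪ p.2) ?_ ?_ ?_ ?_
  · intro I hI
    obtain ⟨hI1, hI2⟩ := mem_filter.1 hI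
    have hI1' := mem_powerset.1 hI1
    rw [mem_sigma]
    refine ⟨mem_powerset.2 (filter_subset_filter _ hI1'), mem_powerset.2 ?_⟩
    intro u hu
    obtain ⟨hu1, hu2⟩ := mem_filter.1 hu
    rw [mem_sdiff]
    refine ⟨mem_filter.2 ⟨hI1' hu1, hu2⟩, fun h => ?_⟩
    obtain ⟨-, -, v, hv, hvu⟩ := mem_nb.1 h
    rw [hI2 v (mem_filter.1 hv).1 u hu1] at hvu
    exact absurd hvu (by simp)
  · rintro ⟨Y, C⟩ hp
    obtain ⟨hY, hC⟩ := mem_sigma.1 hp
    have hY' := mem_powerset.1 hY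
    have hC' := mem_powerset.1 hC
    simp only at hY' hC' ⊢
    rw [mem_filter, mem_powerset]
    have key : ∀ u ∈ Y, ∀ v ∈ C, adj u v = false := by
      intro u hu v hv
      by_contra h
      rw [Bool.not_eq_false] at h
      have h2 := mem_sdiff.1 (hC' hv)
      have h3 := mem_filter.1 h2.1
      exact h2.2 (mem_nb.2 ⟨h3.1, h3.2, u, hu, h⟩)
    refine ⟨union_subset (hY'.trans (filter_subset _ _))
      ((hC'.trans sdiff_subset).trans (filter_subset _ _)), ?_⟩
    intro u hu v hv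
    rcases mem_union.1 hu with hu1 | hu1 <;> rcases mem_union.1 hv with hv1 | hv1
    · by_contra h
      rw [Bool.not_eq_false] at h
      exact (hbip u v h).1 (mem_filter.1 (hY' hu1)).2 (mem_filter.1 (hY' hv1)).2
    · exact key u hu1 v hv1
    · rw [hs]
      exact key v hv1 u hu1
    · by_contra h
      rw [Bool.not_eq_false] at h
      have h2 := (mem_filter.1 (mem_sdiff.1 (hC' hu1)).1).2
      have h3 := (mem_filter.1 (mem_sdiff.1 (hC' hv1)).1).2
      exact h2 ((hbip u v h).2 h3)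
  · intro I _
    exact filter_union_filter_not_eq _ I
  · rintro ⟨Y, C⟩ hp
    obtain ⟨hY, hC⟩ := mem_sigma.1 hp
    have hY' := mem_powerset.1 hY
    have hC' := mem_powerset.1 hC
    simp only at hY' hC' ⊢
    have e1 : (Y ∪ C).filter (fun v => v < a) = Y := by
      ext v
      rw [mem_filter, mem_union]
      constructor
      · rintro ⟨h1 | h1, h2⟩
        · exact h1
        · exact absurd h2 (mem_filter.1 (mem_sdiff.1 (hC' h1)).1).2
      · intro h1
        exact ⟨Or.inl h1, (mem_filter.1 (hY' h1)).2⟩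
    have e2 : (Y ∪ C).filter (fun v => ¬ v < a) = C := by
      ext v
      rw [mem_filter, mem_union]
      constructor
      · rintro ⟨h1 | h1, h2⟩
        · exact absurd (mem_filter.1 (hY' h1)).2 h2
        · exact h1
      · intro h1
        exact ⟨Or.inr h1, (mem_filter.1 (mem_sdiff.1 (hC' h1)).1).2⟩
    rw [e1, e2]

theorem nb_card_le (W Y : Finset ℕ) : (nb a adj W Y).card ≤ (Wc a W).card := by
  refine card_le_card fun u hu => ?_
  obtain ⟨h2, h3, -⟩ := mem_nb.1 hu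
  exact mem_filter.2 ⟨h2, h3⟩

/-- the real form -/
theorem ind_eq_sum_real (hs : ∀ u v, adj u v = adj v u)
    (hbip : ∀ u v, adj u v = true → (u < a ↔ ¬ v < a)) (W : Finset ℕ) :
    (ind adj W : ℝ) = 2 ^ (Wc a W).card *
      ∑ Y ∈ (Wr a W).powerset, (1 / 2 : ℝ) ^ (nb a adj W Y).card := by
  rw [ind_eq_sum_rows hs hbip W, mul_sum]
  push_cast
  refine sum_congr rfl fun Y _ => ?_
  rw [one_div, inv_pow, ← div_eq_mul_inv, eq_div_iff (by positivity), ← pow_add,
    Nat.sub_add_cancel (nb_card_le W Y)]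

/-- lower bound -/
theorem sum_nb_le (hs : ∀ u v, adj u v = adj v u)
    (hbip : ∀ u v, adj u v = true → (u < a ↔ ¬ v < a)) (W : Finset ℕ) :
    ∑ Y ∈ (Wr a W).powerset, (1 / 2 : ℝ) ^ (nb a adj W Y).card ≤
      ∑ Y ∈ (Wr a W).powerset, (1 / 2 : ℝ) ^ cn n a adj κ W Y :=
  sum_le_sum fun Y _ => pow_le_pow_of_le_one (by norm_num) (by norm_num) (cn_le_nb hs hbip W Y)

/-- upper bound -/
theorem sum_cn_le (han : a ≤ n) {W : Finset ℕ} (hW : W ⊆ range n) (hs : ∀ u v, adj u v = adj v u)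
    (hbip : ∀ u v, adj u v = true → (u < a ↔ ¬ v < a)) (κ : ℕ) :
    ∑ Y ∈ (Wr a W).powerset, (1 / 2 : ℝ) ^ cn n a adj κ W Y ≤
      (∑ Y ∈ (Wr a W).powerset, (1 / 2 : ℝ) ^ (nb a adj W Y).card) *
        (1 + (1 / 2 : ℝ) ^ κ) ^ (Wr a W).card := by
  classical
  have hex : ∀ Y : Finset ℕ, Y ⊆ Wr a W → ∃ T ⊆ Y,
      (nb a adj W T).card + κ * (Y \ T).card ≤ cn n a adj κ W Y := fun Y hY =>
    exists_T han hW hs hbip (hY.trans (filter_subset _ _)) fun v hv => (mem_filter.1 (hY hv)).2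
  choose! T hT1 hT2 using hex
  have h0 : ∑ C ∈ (Wr a W).powerset, ((1 / 2 : ℝ) ^ κ) ^ C.card =
      (1 + (1 / 2 : ℝ) ^ κ) ^ (Wr a W).card := by
    have h := Finset.prod_one_add (f := fun _ : ℕ => (1 / 2 : ℝ) ^ κ) (Wr a W)
    rw [prod_const] at h
    rw [h]
    refine sum_congr rfl fun C _ => ?_
    rw [prod_const]
  rw [← h0, sum_mul_sum, ← sum_product']
  have hinj : Set.InjOn (fun Y => (T Y, Y \ T Y)) ((Wr a W).powerset : Set (Finset ℕ)) := by
    intro I hI I' hI' h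
    have h3 : I ⊆ Wr a W := by simpa using hI
    have h4 : I' ⊆ Wr a W := by simpa using hI'
    have h5 := Prod.mk.inj h
    have h6 := union_sdiff_of_subset (hT1 I h3)
    have h7 := union_sdiff_of_subset (hT1 I' h4)
    rw [h5.2, h5.1] at h6
    exact h6.symm.trans h7
  have h2 : ∀ Y ∈ (Wr a W).powerset, (1 / 2 : ℝ) ^ cn n a adj κ W Y ≤
      (1 / 2 : ℝ) ^ (nb a adj W (T Y)).card * ((1 / 2 : ℝ) ^ κ) ^ (Y \ T Y).card := by
    intro Y hY
    rw [← pow_mul, ← pow_add]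
    exact pow_le_pow_of_le_one (by norm_num) (by norm_num) (hT2 Y (mem_powerset.1 hY))
  refine (sum_le_sum h2).trans ?_
  rw [← sum_image (f := fun p : Finset ℕ × Finset ℕ =>
    (1 / 2 : ℝ) ^ (nb a adj W p.1).card * ((1 / 2 : ℝ) ^ κ) ^ p.2.card) hinj]
  refine sum_le_sum_of_subset_of_nonneg ?_ fun p _ _ => by positivity
  intro p hp
  obtain ⟨Y, hY, rfl⟩ := mem_image.1 hp
  have h3 := mem_powerset.1 hY
  rw [mem_product]
  exact ⟨mem_powerset.2 ((hT1 Y h3).trans h3), mem_powerset.2 (sdiff_subset.trans h3)⟩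

/-- the partition function of `FR` -/
theorem sum_FR {W : Finset ℕ} :
    ∑ S : Finset (Fin a), (2 : ℝ) ^ (-(FR n a adj κ W S : ℝ)) =
      2 ^ (a - (Wr a W).card) * ∑ Y ∈ (Wr a W).powerset, (1 / 2 : ℝ) ^ cn n a adj κ W Y := by
  have hR : Wr a W ⊆ range a := fun v hv => mem_range.2 (mem_filter.1 hv).2
  rw [← sum_rows (fun X => (1 / 2 : ℝ) ^ cn n a adj κ W X) hR,
    ← sum_toN fun X => (1 / 2 : ℝ) ^ cn n a adj κ W (X ∩ Wr a W)]
  refine sum_congr rfl fun S _ => ?_
  unfold FR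
  rw [cn_inter, one_div, inv_pow, Real.rpow_neg (by norm_num)]
  congr 1
  rw [← Real.rpow_natCast]
  push_cast
  rfl

/-- `logZ` of `FR` and the number of independent sets -/
theorem logZ_FR (han : a ≤ n) {W : Finset ℕ} (hW : W ⊆ range n) (hs : ∀ u v, adj u v = adj v u)
    (hbip : ∀ u v, adj u v = true → (u < a ↔ ¬ v < a)) :
    ((a : ℝ) - W.card) + Real.logb 2 (ind adj W) ≤ Bounds.logZ (FR n a adj κ W) ∧
      Bounds.logZ (FR n a adj κ W) ≤ ((a : ℝ) - W.card) + Real.logb 2 (ind adj W) +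
        a * (2 / 2 ^ κ) := by
  have hR : Wr a W ⊆ range a := fun v hv => mem_range.2 (mem_filter.1 hv).2
  have hc : (Wr a W).card ≤ a := by simpa using card_le_card hR
  have hi : (0 : ℝ) < ind adj W := by exact_mod_cast ind_pos (adj := adj) W
  set s0 := ∑ Y ∈ (Wr a W).powerset, (1 / 2 : ℝ) ^ (nb a adj W Y).card with hs0def
  set s := ∑ Y ∈ (Wr a W).powerset, (1 / 2 : ℝ) ^ cn n a adj κ W Y with hsdef
  have h0 : (ind adj W : ℝ) = 2 ^ (Wc a W).card * s0 := ind_eq_sum_real hs hbip W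
  have h1 : s0 ≤ s := sum_nb_le hs hbip W
  have h2 : s ≤ s0 * (1 + (1 / 2 : ℝ) ^ κ) ^ (Wr a W).card := sum_cn_le han hW hs hbip κ
  have hs00 : 0 < s0 := by
    rw [h0] at hi
    exact pos_of_mul_pos_right hi (by positivity)
  have hs0 : 0 < s := lt_of_lt_of_le hs00 h1
  have e0 : Real.logb 2 (ind adj W) = (Wc a W).card + Real.logb 2 s0 := by
    rw [h0, Real.logb_mul (by positivity) hs00.ne', Real.logb_pow,
      Real.logb_self_eq_one (by norm_num), mul_one]
  have e1 : Bounds.logZ (FR n a adj κ W) = ((a : ℝ) - (Wr a W).card) + Real.logb 2 s := by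
    unfold Bounds.logZ
    rw [sum_FR, Real.logb_mul (by positivity) hs0.ne', Real.logb_pow,
      Real.logb_self_eq_one (by norm_num), mul_one, Nat.cast_sub hc]
  have hlog : Real.logb 2 s ≤ Real.logb 2 s0 + a * (2 / 2 ^ κ) := by
    have h3 : Real.logb 2 s ≤ Real.logb 2 (s0 * (1 + (1 / 2 : ℝ) ^ κ) ^ (Wr a W).card) :=
      Real.logb_le_logb_of_le (by norm_num) hs0 h2
    refine h3.trans ?_
    rw [Real.logb_mul hs00.ne' (by positivity), Real.logb_pow]
    have h4 : Real.logb 2 (1 + (1 / 2 : ℝ) ^ κ) ≤ 2 / 2 ^ κ := by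
      unfold Real.logb
      rw [div_le_iff₀ (Real.log_pos (by norm_num))]
      have h5 : Real.log (1 + (1 / 2 : ℝ) ^ κ) ≤ (1 / 2 : ℝ) ^ κ := by
        have := Real.log_le_sub_one_of_pos (show (0 : ℝ) < 1 + (1 / 2 : ℝ) ^ κ by positivity)
        linarith
      have h6 : (1 / 2 : ℝ) < Real.log 2 := by
        have := Real.log_two_gt_d9
        linarith
      have h7 : (1 / 2 : ℝ) ^ κ = 1 / 2 ^ κ := by rw [div_pow, one_pow]
      rw [h7] at h5 ⊢
      have h8 : (0 : ℝ) < 1 / 2 ^ κ := by positivity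
      calc Real.log (1 + 1 / 2 ^ κ) ≤ 1 / 2 ^ κ := h5
        _ = 2 * (1 / 2 ^ κ) * (1 / 2) := by ring
        _ ≤ 2 * (1 / 2 ^ κ) * Real.log 2 := mul_le_mul_of_nonneg_left h6.le (by positivity)
        _ = 2 / 2 ^ κ * Real.log 2 := by ring
    have h9 : ((Wr a W).card : ℝ) * Real.logb 2 (1 + (1 / 2 : ℝ) ^ κ) ≤ a * (2 / 2 ^ κ) := by
      have h10 : (0 : ℝ) ≤ Real.logb 2 (1 + (1 / 2 : ℝ) ^ κ) :=
        Real.logb_nonneg (by norm_num) (by
          have : (0 : ℝ) < (1 / 2 : ℝ) ^ κ := by positivity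
          linarith)
      have hcr : ((Wr a W).card : ℝ) ≤ a := by exact_mod_cast hc
      calc ((Wr a W).card : ℝ) * Real.logb 2 (1 + (1 / 2 : ℝ) ^ κ)
          ≤ a * Real.logb 2 (1 + (1 / 2 : ℝ) ^ κ) := mul_le_mul_of_nonneg_right hcr h10
        _ ≤ a * (2 / 2 ^ κ) := mul_le_mul_of_nonneg_left h4 (Nat.cast_nonneg _)
    linarith
  have hlog' : Real.logb 2 s0 ≤ Real.logb 2 s := Real.logb_le_logb_of_le (by norm_num) hs00 h1
  have hcard : (W.card : ℝ) = (Wr a W).card + (Wc a W).card := by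
    exact_mod_cast (card_Wr_add_Wc a W).symm
  rw [e1, e0, hcard]
  constructor <;> linarith

/-- the error of the estimate -/
theorem eW_errR (han : a ≤ n) {W : Finset ℕ} (hW : W ⊆ range n) (hs : ∀ u v, adj u v = adj v u)
    (hbip : ∀ u v, adj u v = true → (u < a ↔ ¬ v < a)) {tot : ℤ} {den : ℕ} (hden : 0 < den)
    {δ : ℝ} (h : |(tot : ℝ) / den - Bounds.logZ (FR n a adj κ W)| ≤ δ) :
    |(eW a a W tot den : ℝ) - Real.logb 2 (ind adj W)| ≤ δ + a * (2 / 2 ^ κ) + 1 := by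
  have hδ : 0 ≤ δ := (abs_nonneg _).trans h
  have hx : (0 : ℝ) ≤ a * (2 / 2 ^ κ) := by positivity
  by_cases hleaf : (W.filter fun v => v < a) = ∅
  · rw [filter_eq_empty_iff] at hleaf
    have h1 := eW_leaf (n := a) (adj := adj) tot den (fun v hv => hleaf hv) hbip
    rw [h1]
    push_cast
    rw [Real.logb_pow, Real.logb_self_eq_one (by norm_num), mul_one, sub_self, abs_zero]
    linarith
  · unfold eW
    rw [if_neg hleaf]
    obtain ⟨g1, g2⟩ := logZ_FR (κ := κ) han hW hs hbip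
    have hi : (0 : ℝ) ≤ Real.logb 2 (ind adj W) :=
      Real.logb_nonneg (by norm_num) (by exact_mod_cast ind_pos (adj := adj) W)
    have hd : (0 : ℝ) < den := by exact_mod_cast hden
    have hdz : (0 : ℤ) < den := by exact_mod_cast hden
    have f1 : ((tot / den : ℤ) : ℝ) ≤ (tot : ℝ) / den := by
      rw [le_div_iff₀ hd]
      exact_mod_cast Int.ediv_mul_le tot hdz.ne'
    have f2 : (tot : ℝ) / den < ((tot / den : ℤ) : ℝ) + 1 := by
      rw [div_lt_iff₀ hd]
      exact_mod_cast Int.lt_ediv_add_one_mul_self tot hdz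
    rw [abs_le] at h ⊢
    set z : ℤ := (W.card : ℤ) - a + tot / den with hz
    have hzr : (z : ℝ) = (W.card : ℝ) - a + ((tot / den : ℤ) : ℝ) := by
      rw [hz]
      push_cast
      ring
    have h3 : (z : ℝ) ≤ (z.toNat : ℝ) := by exact_mod_cast Int.self_le_toNat z
    have h4 : (z.toNat : ℝ) = z ∨ (z.toNat : ℝ) = 0 := by
      rcases le_or_gt 0 z with hz0 | hz0
      · left
        exact_mod_cast Int.toNat_of_nonneg hz0
      · right
        rw [Int.toNat_of_nonpos hz0.le]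
        simp
    constructor
    · linarith [h.1]
    · rcases h4 with h4 | h4
      · rw [h4]
        linarith [h.2]
      · rw [h4]
        linarith

end Pool.Agent.Lib.SubBisR
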