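import Pool.Agent.Lib.SubBisR.RSum
import Pool.Agent.Lib.SubBisX.GenSys

/-!
Most seeds are good, for the set function of the rows: the estimates from independent copies of any
random value whose mean is close to `logZ (FR ..)`.
-/

set_option autoImplicit false

open Finset
open scoped BigOperators

namespace Pool.Agent.Lib.SubBisR

open Pool.Agent.Lib.Pa7c826 Pool.Agent.Lib.Pa7c826t Pool.Agent.Lib.SubBisX
open Pool.Agent.Lib.SubBisX.Node Pool.Agent.Lib.SubBisX.Gen

/-- the estimates from the copies `s` of the random value `V` with the denominator `D` -/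
def eR {Ω : Type*} (a : ℕ) (V : Finset ℕ → Ω → ℤ) (D : ℕ) {K : ℕ} (s : Fin K → Ω)
    (W : Finset ℕ) : ℕ :=
  eW a a W (∑ k, V W (s k)) (K * D)

variable {n a : ℕ} {adj : ℕ → ℕ → Bool}

/-- without rows the estimates are exact -/
theorem goodE_of_zero {δ : ℝ} (hδ : 0 ≤ δ) {Ω : Type*}
    (hbip : ∀ u v, adj u v = true → (u < 0 ↔ ¬ v < 0)) (V : Finset ℕ → Ω → ℤ) (D : ℕ) {K : ℕ}
    (s : Fin K → Ω) : GoodE n 0 adj δ (eR 0 V D s) := by
  have h : ∀ W : Finset ℕ, ind adj W = 2 ^ eR 0 V D s W := fun W =>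
    eW_leaf _ _ (fun v _ => Nat.not_lt_zero v) hbip
  refine ⟨fun W _ => ?_, fun W _ => h W⟩
  rw [h W]
  push_cast
  rw [Real.logb_pow, Real.logb_self_eq_one (by norm_num), mul_one, sub_self, abs_zero]
  exact hδ

open Classical in
/-- **Most seeds are good.** -/
theorem good_seedsR {Ω : Type*} [Fintype Ω] [Nonempty Ω] {V : Finset ℕ → Ω → ℤ} {D K κ : ℕ}
    (hD : 0 < D) (hK : 0 < K) (han : a ≤ n) (hs : ∀ u v, adj u v = adj v u)
    (hbip : ∀ u v, adj u v = true → (u < a ↔ ¬ v < a)) {δ₁ δ₂ B δ : ℝ} (hB : 0 < B)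
    (hδ₂ : 0 < δ₂)
    (hcore : ∀ W ⊆ range n,
      |(Reg.av fun w => (V W w : ℝ)) / D - Bounds.logZ (FR n a adj κ W)| ≤ δ₁)
    (hrange : ∀ W ⊆ range n, ∀ w, |(V W w : ℝ)| ≤ D * B)
    (hcond : 8 * B ^ 2 * (n + 3) ≤ K * δ₂ ^ 2)
    (hδ : δ₁ + δ₂ + a * (2 / 2 ^ κ) + 1 ≤ δ) :
    8 * (univ.filter fun s : Fin K → Ω => ¬ GoodE n a adj δ (eR a V D s)).card ≤
      Fintype.card (Fin K → Ω) := by
  have hD0 : (0 : ℝ) < D := by exact_mod_cast hD
  set f : Finset (Fin n) → Ω → ℝ := fun I w => (V (toN I) w : ℝ) / D with hf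
  have hfB : ∀ I w, |f I w| ≤ B := by
    intro I w
    rw [hf]
    simp only
    rw [abs_div, abs_of_pos hD0, div_le_iff₀ hD0]
    refine (hrange _ (toN_subset I) w).trans (le_of_eq (by ring))
  have hcond' : 8 * B ^ 2 * Real.log (16 * Fintype.card (Finset (Fin n))) ≤ K * δ₂ ^ 2 := by
    have h1 : Real.log (16 * Fintype.card (Finset (Fin n))) ≤ n + 3 := by
      rw [Fintype.card_finset, Fintype.card_fin]
      push_cast
      have e1 : (16 : ℝ) * 2 ^ n = 2 ^ (n + 4) := by ring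
      rw [e1, Real.log_pow]
      have h2 := Real.log_two_lt_d9
      push_cast
      have h3 : (0 : ℝ) ≤ n := Nat.cast_nonneg n
      nlinarith
    refine le_trans (mul_le_mul_of_nonneg_left h1 (by positivity)) hcond
  have hbad := SubBisX.seed_bad hB f hfB K hK hδ₂ hcond'
  refine le_trans (Nat.mul_le_mul_left 8 (card_le_card ?_)) hbad
  intro s hs1
  rw [mem_filter] at hs1 ⊢
  refine ⟨mem_univ _, ?_⟩
  by_contra hcon
  push Not at hcon
  apply hs1.2
  refine ⟨fun W hW => ?_, fun W hW => ?_⟩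
  · set I : Finset (Fin n) := univ.filter fun v : Fin n => (v : ℕ) ∈ W with hI
    have hIW : toN I = W := by
      ext v
      rw [mem_toN]
      constructor
      · rintro ⟨h, hv⟩
        exact (mem_filter.1 hv).2
      · intro hv
        exact ⟨mem_range.1 (hW hv), mem_filter.2 ⟨mem_univ _, hv⟩⟩
    have h1 := hcon I
    have e3 : ∀ w, f I w = (V W w : ℝ) / D := by
      intro w
      rw [← hIW]
    have h2 : |SubBisX.EX (f I) - Bounds.logZ (FR n a adj κ W)| ≤ δ₁ := by
      have h4 : SubBisX.EX (f I) = (Reg.av fun w => (V W w : ℝ)) / D := by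
        unfold SubBisX.EX Reg.av
        rw [sum_congr rfl fun w _ => e3 w, ← sum_div]
        ring
      rw [h4]
      exact hcore W hW
    have h5 : SubBisX.av (f I) s = ((∑ k, V W (s k) : ℤ) : ℝ) / ((K * D : ℕ) : ℝ) := by
      unfold SubBisX.av
      rw [sum_congr rfl fun k _ => e3 (s k), ← sum_div, div_div]
      push_cast
      rw [mul_comm]
    have h6 : |((∑ k, V W (s k) : ℤ) : ℝ) / ((K * D : ℕ) : ℝ) -
        Bounds.logZ (FR n a adj κ W)| ≤ δ₁ + δ₂ := by
      rw [← h5]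
      have h7 := abs_sub_le (SubBisX.av (f I) s) (SubBisX.EX (f I))
        (Bounds.logZ (FR n a adj κ W))
      linarith
    exact (eW_errR han hW hs hbip (Nat.mul_pos hK hD) h6).trans hδ
  · exact eW_leaf _ _ hW hbip

end Pool.Agent.Lib.SubBisR
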